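import Pool.Agent.Q134.CPTree

/-!
# A tree with every connected partition type and two vertices of degree four

The tree has 61 vertices: a vertex `u` with two leaves and an arm with 30 vertices, a vertex `w` with
a leaf, a leg with 2 vertices and an arm with 12 vertices, and a path with 12 inner vertices between
`u` and `w`.

In the order arm, `u`, leaves, path, `w`, leaf, leg, arm an interval of positions is connected as soon
as it does not start at `31, 32, 46, 47, 48`; so it suffices to order the parts of a partition of `61`
such that no partial sum is one of these five numbers (17 partitions into twos and a few other parts
need the leg as a separate block). A block can always be cut into its last vertex and the rest, so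
only partitions without ones matter; a search tree with 3578 leaves, at which the smaller parts are
filled in greedily, is checked by the kernel.
-/

set_option autoImplicit false

open Pool.Agent.Q134.CP

namespace Pool.Agent.Results.MP_d6ea2c_co.TwoDegreeFour

/-- **Theorem.** There is a tree `T` of maximum degree `4` (with 61 vertices) which has a connected
partition of every type, and which has two different vertices of degree `4`. -/
theorem result : ∃ (T : SimpleGraph (Fin 61)) (_ : DecidableRel T.Adj), T.IsTree ∧ IsCPET T ∧
    T.maxDegree = 4 ∧ ∃ u w, u ≠ w ∧ T.degree u = 4 ∧ T.degree w = 4 := by
  have h1 : ∀ v, tree.degree v ≤ 4 := by decide +kernel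
  have h2 : tree.degree 30 = 4 := by decide +kernel
  have h3 : tree.degree 45 = 4 := by decide +kernel
  refine ⟨tree, inferInstance, isTree, cpet, ?_, 30, 45, by decide, h2, h3⟩
  refine le_antisymm (tree.maxDegree_le_of_forall_degree_le 4 h1) ?_
  rw [← h2]
  exact tree.degree_le_maxDegree 30

end Pool.Agent.Results.MP_d6ea2c_co.TwoDegreeFour
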